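import Pool.Graph.R_pool_sql_team_seeded_3997aac3.Q230.WL.Hard

/-!
# Fair Pareto optimal Nash equilibria of three-player win-lose games

The decision problems on three-player win-lose games that contain all games with a Pareto optimal
Nash equilibrium of payoffs `1/2`, `1/2`, `1/2` whose total payoff is maximal among the Nash
equilibria, and that contain no game without a Pareto optimal Nash equilibrium in which all Nash
equilibria have total payoff less than `3/2`, are `∃ℝ`-hard.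
-/

set_option autoImplicit false

namespace Pool.Agent.Results.MP_d68d66_lc.FairPareto

open Finset Pool.Agent.NPC Pool.Agent.NPC.ER Pool.Agent.Q230.WL

/-- The game has a Nash equilibrium that is Pareto optimal, gives each of the three players the
expected payoff `1/2`, and has the largest total payoff (namely `3/2`) of all Nash equilibria. -/
def FairPONE (G : Game) : Prop :=
  ∃ n₁ n₂ n₃, Shape G n₁ n₂ n₃ ∧ ∃ x y z, IsNash G n₁ n₂ n₃ x y z ∧
    ParetoOptimal G n₁ n₂ n₃ x y z ∧ (∀ i < 3, U G n₁ n₂ n₃ i x y z = 1 / 2) ∧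
    ∀ x' y' z', IsNash G n₁ n₂ n₃ x' y' z' →
      U G n₁ n₂ n₃ 0 x' y' z' + U G n₁ n₂ n₃ 1 x' y' z' + U G n₁ n₂ n₃ 2 x' y' z' ≤ 3 / 2

/-- The game has a Nash equilibrium whose total payoff is at least `3/2`. -/
def RichNE (G : Game) : Prop :=
  ∃ n₁ n₂ n₃, Shape G n₁ n₂ n₃ ∧ ∃ x y z, IsNash G n₁ n₂ n₃ x y z ∧
    3 / 2 ≤ U G n₁ n₂ n₃ 0 x y z + U G n₁ n₂ n₃ 1 x y z + U G n₁ n₂ n₃ 2 x y z

section
variable {T n : ℕ} {M : ℕ → ℕ → ℕ → Bool}

theorem rr_le {y : ℕ → ℝ} (hy : Mixed (2 * n + 2) y) : rr n y ≤ 1 := by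
  have hr := rr_add hy
  have q0 := hy.1 (2 * n) (by omega)
  have q1 := hy.1 (2 * n + 1) (by omega)
  linarith

/-- the total payoff of a Nash equilibrium of the game -/
theorem total_le (hT : 0 < T) {x y z : ℕ → ℝ}
    (h : IsNash (gam T n M) (2 * T) (2 * n + 2) n x y z) :
    (∀ t < T, ex n M t y z ≤ V T n M x y z ∧ rr n y - ex n M t y z ≤ V T n M x y z) ∧
    U (gam T n M) (2 * T) (2 * n + 2) n 0 x y z + U (gam T n M) (2 * T) (2 * n + 2) n 1 x y z +
      U (gam T n M) (2 * T) (2 * n + 2) n 2 x y z ≤ 1 + rr n y - V T n M x y z ∧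
    U (gam T n M) (2 * T) (2 * n + 2) n 0 x y z + U (gam T n M) (2 * T) (2 * n + 2) n 1 x y z +
      U (gam T n M) (2 * T) (2 * n + 2) n 2 x y z ≤ 1 + rr n y / 2 := by
  obtain ⟨hx, hy, hz, e1, e2, -⟩ := h
  have hr := rr_add hy
  have q0 := hy.1 (2 * n) (by omega)
  have q1 := hy.1 (2 * n + 1) (by omega)
  have p0 := pw_nonneg hx 0
  have p1 := pw_nonneg hx 1
  have p2 := pw_add hx
  have hQ : Qo T n x y z ≤ y (2 * n) + y (2 * n + 1) := by
    rw [Qo_eq hz]
    have := mul_le_of_le_one_right q0 (by linarith : pw T x 0 ≤ 1)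
    have := mul_le_of_le_one_right q1 (by linarith : pw T x 1 ≤ 1)
    linarith
  have key : ∀ t < T, ex n M t y z ≤ V T n M x y z ∧ rr n y - ex n M t y z ≤ V T n M x y z := by
    intro t ht
    have h1 := e1 (pt (2 * t)) (mixed_pt (by omega))
    have h2 := e1 (pt (2 * t + 1)) (mixed_pt (by omega))
    rw [U0, U0, V_even ht] at h1
    rw [U0, U0, V_odd ht hz] at h2
    exact ⟨h1, h2⟩
  refine ⟨key, ?_, ?_⟩
  · rw [U0, U1 hx hz, U2 hx hz]
    linarith
  · have := key 0 hT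
    rw [U0, U1 hx hz, U2 hx hz]
    linarith

theorem sound2 (hT : 0 < T) {x y z : ℕ → ℝ}
    (h : IsNash (gam T n M) (2 * T) (2 * n + 2) n x y z)
    (hp : 3 / 2 ≤ U (gam T n M) (2 * T) (2 * n + 2) n 0 x y z +
      U (gam T n M) (2 * T) (2 * n + 2) n 1 x y z + U (gam T n M) (2 * T) (2 * n + 2) n 2 x y z) :
    rr n y = 1 ∧ ∀ t < T, ex n M t y z = 1 / 2 := by
  obtain ⟨h1, h2, h3⟩ := total_le hT h
  have h4 := rr_le h.2.1
  have h5 : rr n y = 1 := by linarith
  refine ⟨h5, fun t ht => ?_⟩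
  have h6 := h1 t ht
  rw [h5] at h6 h2
  linarith [h6.1, h6.2]

theorem completeF (hT : 0 < T) (hn : 0 < n) {y z : ℕ → ℝ} (hy : Mixed (2 * n) y) (hz : Mixed n z)
    (h : ∀ t < T, ex n M t y z = 1 / 2) : FairPONE (gam T n M) := by
  set x : ℕ → ℝ := fun _ => 1 / (2 * T) with hxdef
  set y' : ℕ → ℝ := fun b => if b < 2 * n then y b else 0 with hydef
  have hT' : (0 : ℝ) < T := by exact_mod_cast hT
  have hx : Mixed (2 * T) x := by
    refine ⟨fun a _ => by rw [hxdef]; positivity, ?_⟩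
    rw [hxdef]
    simp
    field_simp
  have hrr : rr n y' = 1 := by
    unfold rr
    rw [← hy.2]
    refine sum_congr rfl fun b hb => ?_
    rw [mem_range] at hb
    simp [hydef, hb]
  have hy1 : y' (2 * n) = 0 := by simp [hydef]
  have hy2 : y' (2 * n + 1) = 0 := by simp [hydef]
  have hy' : Mixed (2 * n + 2) y' := by
    refine ⟨fun b _ => ?_, ?_⟩
    · simp only [hydef]
      split_ifs with hb
      · exact hy.1 b hb
      · exact le_rfl
    · rw [sum_range_succ, sum_range_succ, hy1, hy2]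
      unfold rr at hrr
      rw [hrr]; ring
  have hex : ∀ t, ex n M t y' z = ex n M t y z := by
    intro t
    unfold ex
    refine sum_congr rfl fun b hb => sum_congr rfl fun c _ => ?_
    rw [mem_range] at hb
    simp [hydef, hb]
  -- the values of the pure strategies of the first player
  have hVp : ∀ a < 2 * T, V T n M (pt a) y' z = 1 / 2 := by
    intro a ha
    rcases Nat.even_or_odd' a with ⟨t, rfl | rfl⟩
    · rw [V_even (by omega), hex, h t (by omega)]
    · rw [V_odd (by omega) hz, hex, h t (by omega), hrr]; norm_num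
  have hVlin : ∀ x₁ : ℕ → ℝ, V T n M x₁ y' z = ∑ a ∈ range (2 * T), x₁ a * V T n M (pt a) y' z := by
    intro x₁
    conv_lhs => unfold V
    refine sum_congr rfl fun a ha => ?_
    rw [V_pt (mem_range.1 ha), mul_sum]
    refine sum_congr rfl fun b _ => ?_
    rw [mul_sum]
    refine sum_congr rfl fun c _ => ?_
    ring
  have hVx : ∀ x₁, Mixed (2 * T) x₁ → V T n M x₁ y' z = 1 / 2 := by
    intro x₁ hx₁
    rw [hVlin, sum_congr rfl fun a ha => by rw [hVp a (mem_range.1 ha)], ← sum_mul, hx₁.2]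
    ring
  -- uniform play gives one half in every cell of the team game
  have hu : ∀ (f : ℕ → ℕ → ℝ), ∑ a ∈ range (2 * T), ∑ b ∈ range (2 * n), ∑ c ∈ range n,
      x a * f b c * g1 M a b c = (∑ b ∈ range (2 * n), ∑ c ∈ range n, f b c) / 2 := by
    intro f
    have hsum : ∀ (m : ℕ) (F : ℕ → ℝ), ∑ a ∈ range (2 * m), F a =
        ∑ t ∈ range m, (F (2 * t) + F (2 * t + 1)) := by
      intro m F
      induction m with
      | zero => simp
      | succ m ih =>
        rw [show 2 * (m + 1) = 2 * m + 1 + 1 by ring, sum_range_succ, sum_range_succ, ih,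
          sum_range_succ]
        ring
    rw [hsum]
    have hcell : ∀ t, (∑ b ∈ range (2 * n), ∑ c ∈ range n, x (2 * t) * f b c * g1 M (2 * t) b c) +
        (∑ b ∈ range (2 * n), ∑ c ∈ range n, x (2 * t + 1) * f b c * g1 M (2 * t + 1) b c) =
        (∑ b ∈ range (2 * n), ∑ c ∈ range n, f b c) * (1 / (2 * T)) := by
      intro t
      rw [← sum_add_distrib, sum_mul]
      refine sum_congr rfl fun b _ => ?_
      rw [← sum_add_distrib, sum_mul]
      refine sum_congr rfl fun c _ => ?_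
      have e1 : g1 M (2 * t) b c = tv M t b c := by
        unfold g1
        rw [if_neg (by omega), show 2 * t / 2 = t by omega]
      have e2 : g1 M (2 * t + 1) b c = 1 - tv M t b c := by
        unfold g1
        rw [if_pos (by omega), show (2 * t + 1) / 2 = t by omega]
      rw [e1, e2]
      simp only [hxdef]
      ring
    simp only [hcell]
    rw [sum_const, card_range, nsmul_eq_mul]
    field_simp
  have hVy : ∀ y₁ z₁, Mixed (2 * n + 2) y₁ → Mixed n z₁ → V T n M x y₁ z₁ = rr n y₁ / 2 := by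
    intro y₁ z₁ _ hz₁
    have h1 := hu (fun b c => y₁ b * z₁ c)
    have h2 : ∑ b ∈ range (2 * n), ∑ c ∈ range n, y₁ b * z₁ c = rr n y₁ := by
      unfold rr
      refine sum_congr rfl fun b _ => ?_
      rw [← mul_sum, hz₁.2, mul_one]
    rw [h2] at h1
    rw [← h1]
    unfold V
    refine sum_congr rfl fun a _ => sum_congr rfl fun b _ => sum_congr rfl fun c _ => ?_
    ring
  have hpw : pw T x 0 = 1 / 2 ∧ pw T x 1 = 1 / 2 := by
    have hq : ∀ m : ℕ, (∑ a ∈ range (2 * m), (if a % 2 = 0 then (1 : ℝ) else 0)) = m := by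
      intro m
      induction m with
      | zero => simp
      | succ m ih =>
        rw [show 2 * (m + 1) = 2 * m + 1 + 1 by ring, sum_range_succ, sum_range_succ, ih,
          if_pos (by omega), if_neg (by omega)]
        push_cast; ring
    have h0 : pw T x 0 = 1 / 2 := by
      unfold pw
      simp only [hxdef]
      rw [← mul_sum, hq]
      field_simp
    have := pw_add hx
    exact ⟨h0, by linarith⟩
  have hQall : ∀ y₁ z₁, Mixed n z₁ → Qo T n x y₁ z₁ = (y₁ (2 * n) + y₁ (2 * n + 1)) / 2 := by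
    intro y₁ z₁ hz₁
    rw [Qo_eq hz₁, hpw.1, hpw.2]; ring
  have a0 : U (gam T n M) (2 * T) (2 * n + 2) n 0 x y' z = 1 / 2 := by rw [U0, hVx x hx]
  have a1 : U (gam T n M) (2 * T) (2 * n + 2) n 1 x y' z = 1 / 2 := by
    rw [U1 hx hz, hVx x hx, hrr, hQall y' z hz, hy1, hy2]; norm_num
  have a2 : U (gam T n M) (2 * T) (2 * n + 2) n 2 x y' z = 1 / 2 := by
    rw [U2 hx hz, hVx x hx, hrr]; norm_num
  refine ⟨2 * T, 2 * n + 2, n, shape_gam hT hn M, x, y', z, ⟨hx, hy', hz, ?_, ?_, ?_⟩, ?_, ?_, ?_⟩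
  · intro x₁ hx₁
    rw [a0, U0, hVx x₁ hx₁]
  · intro y₁ hy₁
    have := rr_add hy₁
    rw [a1, U1 hx hz, hVy y₁ z hy₁ hz, hQall y₁ z hz]
    linarith
  · intro z₁ hz₁
    rw [a2, U2 hx hz₁, hVy y' z₁ hy' hz₁, hrr]
    norm_num
  · rintro x₁ y₁ z₁ hx₁ hy₁ hz₁ ⟨hge, i, hi, hlt⟩
    have g0 := hge 0 (by omega)
    have g2 := hge 2 (by omega)
    rw [a0, U0] at g0
    rw [a2, U2 hx₁ hz₁] at g2
    have hr := rr_add hy₁
    have q0 := hy₁.1 (2 * n) (by omega)
    have q1 := hy₁.1 (2 * n + 1) (by omega)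
    have hy3 : y₁ (2 * n) = 0 := by linarith
    have hy4 : y₁ (2 * n + 1) = 0 := by linarith
    have : i = 0 ∨ i = 1 ∨ i = 2 := by omega
    rcases this with rfl | rfl | rfl
    · rw [a0, U0] at hlt; linarith
    · rw [a1, U1 hx₁ hz₁, Qo_eq hz₁, hy3, hy4] at hlt; linarith
    · rw [a2, U2 hx₁ hz₁] at hlt; linarith
  · intro i hi
    have : i = 0 ∨ i = 1 ∨ i = 2 := by omega
    rcases this with rfl | rfl | rfl
    · exact a0
    · exact a1
    · exact a2
  · intro x₁ y₁ z₁ hN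
    have h1 := (total_le hT hN).2
    have h2 := rr_le hN.2.1
    linarith

theorem pone_iffF (hT : 0 < T) (hn : 0 < n)
    (h : PONE (gam T n M) ∨ RichNE (gam T n M)) :
    ∃ y z, Mixed (2 * n) y ∧ Mixed n z ∧ ∀ t < T, ex n M t y z = 1 / 2 := by
  rcases h with h | ⟨n₁, n₂, n₃, hs, x, y, z, hN, hP⟩
  · exact (pone_iff hT hn).1 h
  · obtain ⟨rfl, rfl, rfl⟩ := shape_unique hs (shape_gam hT hn M)
    obtain ⟨h1, h2⟩ := sound2 hT hN hP
    exact ⟨y, z, ⟨fun b hb => hN.2.1.1 b (by omega), h1⟩, hN.2.2.1, h2⟩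

end

theorem correctQ {Q : Game → Prop} (h1 : ∀ G, FairPONE G → Q G)
    (h2 : ∀ G, Q G → PONE G ∨ RichNE G) (S : List Con) :
    Sat S ↔ Q (bgame (9 + 9 * (bsys S).length) (rsys (bsys S))) := by
  have hR := wf_rsys (bsys S)
  have hn : 0 < 9 + 9 * (bsys S).length := by omega
  have hT : 0 < (tests (9 + 9 * (bsys S).length) (rsys (bsys S))).length := by simp [tests]
  constructor
  · intro h
    have h3 := (tests_iff hR).2 (solv_of_sat h)
    obtain ⟨y, z, hy, hz, h4⟩ := h3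
    exact h1 _ (completeF hT hn hy hz (ex_iff.2 h4))
  · intro h
    have h3 := pone_iffF hT hn (h2 _ h)
    obtain ⟨y, z, hy, hz, h4⟩ := h3
    exact sat_of_solv ((tests_iff hR).1 ⟨y, z, hy, hz, ex_iff.1 h4⟩)

/-- Every decision problem `Q` on three-player win-lose games with `FairPONE ⊆ Q ⊆ PONE ∪ RichNE` is
`∃ℝ`-hard.  This applies to PONE-WL, to the existence of a Pareto optimal Nash equilibrium in which
all three players have the same payoff, to the existence of a Pareto optimal Nash equilibrium that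
has the largest total payoff of all Nash equilibria, and to the existence of a Pareto optimal Nash
equilibrium in which every player gets at least `1/2`. -/
theorem result :
    (∀ Q : Game → Prop, (∀ G, FairPONE G → Q G) → (∀ G, Q G → PONE G ∨ RichNE G) →
      ERHard (lang Q)) ∧
    ERHard (lang FairPONE) ∧
    ERHard (lang fun G : Game => ∃ n₁ n₂ n₃, Shape G n₁ n₂ n₃ ∧ ∃ x y z,
      IsNash G n₁ n₂ n₃ x y z ∧ ParetoOptimal G n₁ n₂ n₃ x y z ∧
      U G n₁ n₂ n₃ 0 x y z = U G n₁ n₂ n₃ 1 x y z ∧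
      U G n₁ n₂ n₃ 1 x y z = U G n₁ n₂ n₃ 2 x y z) ∧
    ERHard (lang fun G : Game => ∃ n₁ n₂ n₃, Shape G n₁ n₂ n₃ ∧ ∃ x y z,
      IsNash G n₁ n₂ n₃ x y z ∧ ParetoOptimal G n₁ n₂ n₃ x y z ∧
      ∀ x' y' z', IsNash G n₁ n₂ n₃ x' y' z' →
        U G n₁ n₂ n₃ 0 x' y' z' + U G n₁ n₂ n₃ 1 x' y' z' + U G n₁ n₂ n₃ 2 x' y' z' ≤
        U G n₁ n₂ n₃ 0 x y z + U G n₁ n₂ n₃ 1 x y z + U G n₁ n₂ n₃ 2 x y z) ∧
    ERHard (lang fun G : Game => ∃ n₁ n₂ n₃, Shape G n₁ n₂ n₃ ∧ ∃ x y z,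
      IsNash G n₁ n₂ n₃ x y z ∧ ParetoOptimal G n₁ n₂ n₃ x y z ∧
      ∀ i < 3, 1 / 2 ≤ U G n₁ n₂ n₃ i x y z) := by
  have main : ∀ Q : Game → Prop, (∀ G, FairPONE G → Q G) → (∀ G, Q G → PONE G ∨ RichNE G) →
      ERHard (lang Q) := fun Q h1 h2 => ERHard.of_sys (poly_bgame Poly.id) (correctQ h1 h2)
  refine ⟨main, main _ (fun _ h => h) ?_, main _ ?_ ?_, main _ ?_ ?_, main _ ?_ ?_⟩
  · rintro G ⟨a, b, c, hs, x, y, z, hN, hP, -⟩
    exact Or.inl ⟨a, b, c, hs, x, y, z, hN, hP⟩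
  · rintro G ⟨a, b, c, hs, x, y, z, hN, hP, hU, -⟩
    exact ⟨a, b, c, hs, x, y, z, hN, hP, by rw [hU 0 (by omega), hU 1 (by omega)],
      by rw [hU 1 (by omega), hU 2 (by omega)]⟩
  · rintro G ⟨a, b, c, hs, x, y, z, hN, hP, -⟩
    exact Or.inl ⟨a, b, c, hs, x, y, z, hN, hP⟩
  · rintro G ⟨a, b, c, hs, x, y, z, hN, hP, hU, hm⟩
    refine ⟨a, b, c, hs, x, y, z, hN, hP, fun x' y' z' h' => ?_⟩
    have := hm x' y' z' h'
    rw [hU 0 (by omega), hU 1 (by omega), hU 2 (by omega)]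
    linarith
  · rintro G ⟨a, b, c, hs, x, y, z, hN, hP, -⟩
    exact Or.inl ⟨a, b, c, hs, x, y, z, hN, hP⟩
  · rintro G ⟨a, b, c, hs, x, y, z, hN, hP, hU, -⟩
    exact ⟨a, b, c, hs, x, y, z, hN, hP, fun i hi => (hU i hi).ge⟩
  · rintro G ⟨a, b, c, hs, x, y, z, hN, hP, -⟩
    exact Or.inl ⟨a, b, c, hs, x, y, z, hN, hP⟩

end Pool.Agent.Results.MP_d68d66_lc.FairPareto
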